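import Pool.Agent.H34.N6V.Targets

/-! VCHI. The quadratic character of units is multiplicative. -/

set_option autoImplicit false

open Polynomial NumberField IsDedekindDomain Pool.Agent.H32.QC Pool.Agent.H34.N6
open Pool.Agent.H13.DEV Pool.Agent.H34.N6V

namespace Pool.Agent.H45.N6V

theorem isSquare_mul_iff {F : Type} [Field F] [Finite F] {x y : F} (hx : x ≠ 0) (hy : y ≠ 0) :
    IsSquare (x * y) ↔ (IsSquare x ↔ IsSquare y) := by
  classical
  haveI := Fintype.ofFinite F
  by_cases h2 : ringChar F = 2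
  · have hall : ∀ z : F, IsSquare z := fun z => FiniteField.isSquare_of_char_two h2 z
    exact ⟨fun _ => ⟨fun _ => hall y, fun _ => hall x⟩, fun _ => hall _⟩
  have hm1 : (-1 : ℤ) ≠ 1 := by decide
  rw [← quadraticChar_one_iff_isSquare hx, ← quadraticChar_one_iff_isSquare hy,
    ← quadraticChar_one_iff_isSquare (mul_ne_zero hx hy), map_mul]
  rcases quadraticChar_dichotomy hx with h | h <;>
    rcases quadraticChar_dichotomy hy with h' | h' <;> rw [h, h']
  · simp
  · simp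
  · simp
  · simp

theorem pf_CHI (hRSF : T_RSF) (hSQR : T_SQR) : T_CHI := by
  intro k _ _ v h2 a b ha hb
  obtain ⟨F, _, _, O, ρ, hR⟩ := hRSF k v
  set a' : O := ⟨a, (hR.mem a).2 ha.le⟩ with ha'
  set b' : O := ⟨b, (hR.mem b).2 hb.le⟩ with hb'
  have h3 : ρ a' ≠ 0 := fun h => absurd ((hR.ker a').1 h) (not_lt.2 ha.ge)
  have h4 : ρ b' ≠ 0 := fun h => absurd ((hR.ker b').1 h) (not_lt.2 hb.ge)
  have h5 : ρ (a' * b') ≠ 0 := by
    rw [map_mul]
    exact mul_ne_zero h3 h4
  have h6 := hSQR k v F O ρ hR h2 a' h3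
  have h7 := hSQR k v F O ρ hR h2 b' h4
  have h8 := hSQR k v F O ρ hR h2 (a' * b') h5
  have h9 : ((a' * b' : O) : k) = a * b := rfl
  rw [h9] at h8
  rw [h8, map_mul, isSquare_mul_iff h3 h4, ← h6, ← h7]

end Pool.Agent.H45.N6V
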