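import Pool.Agent.H34.N6V.Targets

/-! VFF2. Squares in finite fields and resultants, products. -/

set_option autoImplicit false

open Polynomial NumberField IsDedekindDomain Pool.Agent.H32.QC Pool.Agent.H34.N6
open Pool.Agent.H13.DEV Pool.Agent.H34.N6V

namespace Pool.Agent.H45.N6V

theorem isSquare_mul_iff' {F : Type} [Field F] [Finite F] {x y : F} (hx : x ≠ 0) (hy : y ≠ 0) :
    IsSquare (x * y) ↔ (IsSquare x ↔ IsSquare y) := by
  classical
  haveI := Fintype.ofFinite F
  rw [← quadraticChar_one_iff_isSquare hx, ← quadraticChar_one_iff_isSquare hy,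
    ← quadraticChar_one_iff_isSquare (mul_ne_zero hx hy), map_mul]
  rcases quadraticChar_dichotomy hx with h | h <;>
    rcases quadraticChar_dichotomy hy with h' | h' <;> rw [h, h'] <;> simp

theorem pf_FF2 (hFF1 : T_FF1) : T_FF2 := by
  classical
  intro F T _ _ _ h2 q D hq
  have hprod : (∏ i, q i).resultant D = ∏ i, (q i).resultant D := by
    refine resultant_prod_left Finset.univ q D D.natDegree ?_ le_rfl
    rw [Finset.prod_congr rfl (fun i _ => (hq i).1.leadingCoeff), Finset.prod_const_one]
    exact one_ne_zero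
  have hne : ∀ i, (q i).resultant D ≠ 0 := by
    intro i
    exact resultant_ne_zero _ _ ((hq i).2.1.coprime_iff_not_dvd.2 (hq i).2.2)
  have hne' : ∀ s : Finset T, ∏ i ∈ s, (q i).resultant D ≠ 0 := fun s =>
    Finset.prod_ne_zero_iff.2 (fun i _ => hne i)
  have key : ∀ s : Finset T, IsSquare (∏ i ∈ s, (q i).resultant D) ↔
      Even (s.filter (fun i => ¬ SqMod (q i) D)).card := by
    intro s
    induction s using Finset.induction_on with
    | empty => simp
    | insert a s ha ih =>
      rw [Finset.prod_insert ha, isSquare_mul_iff' (hne a) (hne' s), ih,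
        hFF1 F h2 (q a) D (hq a).1 (hq a).2.1 (hq a).2.2, Finset.filter_insert]
      by_cases h : SqMod (q a) D
      · rw [if_neg (not_not.2 h)]
        exact ⟨fun h1 => h1.1 h, fun h1 => ⟨fun _ => h1, fun _ => h⟩⟩
      · rw [if_pos h, Finset.card_insert_of_notMem
          (fun h1 => ha (Finset.mem_filter.1 h1).1), Nat.even_add_one]
        exact ⟨fun h1 h3 => h (h1.2 h3), fun h1 => ⟨fun h3 => absurd h3 h,
          fun h3 => absurd h3 h1⟩⟩
  rw [hprod, key Finset.univ, Nat.card_eq_fintype_card, Fintype.card_subtype]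

end Pool.Agent.H45.N6V
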