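import Pool.Agent.H34.N6V.Targets
import Pool.Agent.H23.N6.Hens

/-! VSQR. Squares of units at a finite place and in the residue field. -/

set_option autoImplicit false

open Polynomial NumberField IsDedekindDomain Pool.Agent.H32.QC Pool.Agent.H34.N6
open Pool.Agent.H13.DEV Pool.Agent.H34.N6V

namespace Pool.Agent.H45.N6V

theorem resd_unit {k : Type} [Field k] [NumberField k] {v : FPl k} {F : Type} [Field F]
    {O : Subring k} {ρ : O →+* F} (hR : Resd v F O ρ) (y : O) (hy : ρ y ≠ 0) :
    ‖ic v (y : k)‖ = 1 := by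
  refine le_antisymm ((hR.mem _).1 y.2) ?_
  by_contra h
  exact hy ((hR.ker y).2 (not_le.1 h))

theorem pf_SQR : T_SQR := by
  intro k _ _ v F _ O ρ hR h2 x hx
  constructor
  · rintro ⟨s, hs⟩
    have hxn := resd_unit hR x hx
    have hsn : ‖s‖ = 1 := by
      have h3 : ‖s‖ * ‖s‖ = 1 := by rw [← norm_mul, ← hs, hxn]
      nlinarith [norm_nonneg s]
    obtain ⟨t, ht⟩ := (Metric.denseRange_iff.1
      (HeightOneSpectrum.denseRange_algebraMap k v)) s 1 one_pos
    rw [dist_eq_norm] at ht
    have htn : ‖ic v t‖ ≤ 1 := by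
      have h4 : ic v t = s + -(s - ic v t) := by ring
      rw [h4]
      refine (IsUltrametricDist.norm_add_le_max _ _).trans (max_le hsn.le ?_)
      rw [norm_neg]
      exact ht.le
    refine ⟨ρ ⟨t, (hR.mem t).2 htn⟩, ?_⟩
    have h5 : ρ (x - ⟨t, (hR.mem t).2 htn⟩ * ⟨t, (hR.mem t).2 htn⟩) = 0 := by
      rw [hR.ker]
      have h6 : ic v ((x - ⟨t, (hR.mem t).2 htn⟩ * ⟨t, (hR.mem t).2 htn⟩ : O) : k) =
          (s - ic v t) * (s + ic v t) := by
        rw [AddSubgroupClass.coe_sub, Subring.coe_mul, map_sub, map_mul, hs]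
        ring
      rw [h6, norm_mul]
      have h7 : ‖s + ic v t‖ ≤ 1 :=
        (IsUltrametricDist.norm_add_le_max _ _).trans (max_le hsn.le htn)
      exact mul_lt_one_of_nonneg_of_lt_one_left (norm_nonneg _) ht h7
    rw [map_sub, map_mul, sub_eq_zero] at h5
    exact h5
  · rintro ⟨r, hr⟩
    obtain ⟨t, rfl⟩ := hR.sur r
    have ht0 : ρ t ≠ 0 := by
      intro h
      rw [h, mul_zero] at hr
      exact hx hr
    have htn := resd_unit hR t ht0
    have hxn := resd_unit hR x hx
    have h3 : ‖ic v ((x - t * t : O) : k)‖ < 1 := by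
      rw [← hR.ker, map_sub, map_mul, hr, sub_self]
    rw [AddSubgroupClass.coe_sub, Subring.coe_mul, map_sub, map_mul] at h3
    have hc : ∀ i, ‖(X ^ 2 - C (ic v (x : k)) : (v.adicCompletion k)[X]).coeff i‖ ≤ 1 := by
      intro i
      rw [coeff_sub, coeff_X_pow, coeff_C]
      rw [sub_eq_add_neg]
      refine (IsUltrametricDist.norm_add_le_max _ _).trans (max_le ?_ ?_)
      · split_ifs
        · rw [norm_one]
        · rw [norm_zero]
          exact zero_le_one
      · rw [norm_neg]
        split_ifs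
        · exact hxn.le
        · rw [norm_zero]
          exact zero_le_one
    have h4 : ‖eval (ic v (t : k)) (X ^ 2 - C (ic v (x : k)) : (v.adicCompletion k)[X])‖ < 1 := by
      rw [eval_sub, eval_pow, eval_X, eval_C, ← norm_neg, neg_sub, pow_two]
      exact h3
    have h5 : ‖eval (ic v (t : k))
        (derivative (X ^ 2 - C (ic v (x : k)) : (v.adicCompletion k)[X]))‖ = 1 := by
      rw [derivative_sub, derivative_C, sub_zero, derivative_X_pow, eval_mul, eval_C, eval_pow,
        eval_X, norm_mul, pow_one, htn, mul_one]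
      have h6 : ((2 : ℕ) : v.adicCompletion k) = ic v 2 := by
        rw [map_ofNat]
        rfl
      rw [h6, h2]
    obtain ⟨e, he, -⟩ := Pool.Agent.H23.N6.hensel_root hc htn.le h4 h5
    refine ⟨e, ?_⟩
    rw [eval_sub, eval_pow, eval_X, eval_C, sub_eq_zero, pow_two] at he
    exact he.symm

end Pool.Agent.H45.N6V
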